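import Pool.Agent.Run7.h641.SV.Defs
import Pool.Agent.Run7.h641.AP.Iface
import Pool.Agent.Run7.h921.AP.SCa

/-!
# Second moments for packets of special points of products of Shimura varieties
-/

set_option autoImplicit false
set_option linter.unusedSectionVars false
set_option linter.style.haveILetI false

open Filter Topology MeasureTheory
open Pool.Agent.Run7.h293.EQ Pool.Agent.Run7.h641.AP

namespace Pool.Agent.Run7.h641.SV

/-- `Pool.Agent.Run7.h160.AP.card_img_le` with `e` instead of `2` -/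
theorem card_img_le {G P : Type*} [Group G] [Group P] {n e : ℕ} (G' : Subgroup G) (φ : G' →* P)
    (E : Subgroup G) (K : Fin n → Subgroup G) (j : Fin n) (hE : E ≤ G')
    (hK : ∀ l, (K l).index ≠ 0 ∧ (K l).index ≤ e) :
    Nat.card (((E ⊓ K j).subgroupOf G').map φ) ≤
      e ^ n * Nat.card (((⨅ l, E ⊓ K l).subgroupOf G').map φ) := by
  set B := (⨅ l, E ⊓ K l).subgroupOf G' with hB
  set A := (E ⊓ K j).subgroupOf G' with hA
  have hle : (⨅ l, E ⊓ K l) ≤ E ⊓ K j := iInf_le _ j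
  have hBA : B ≤ A := fun x hx => by
    rw [hB, Subgroup.mem_subgroupOf] at hx
    rw [hA, Subgroup.mem_subgroupOf]
    exact hle hx
  have h1 : B.relIndex A = (⨅ l, E ⊓ K l).relIndex (E ⊓ K j) :=
    Subgroup.relIndex_subgroupOf (inf_le_left.trans hE)
  have hE1 : E.relIndex (E ⊓ K j) = 1 := Subgroup.relIndex_eq_one.2 inf_le_left
  have hne : ∀ l, (E ⊓ K l).relIndex (E ⊓ K j) ≠ 0 := by
    intro l
    refine Subgroup.relIndex_inf_ne_zero (by rw [hE1]; exact one_ne_zero) ?_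
    intro h
    have h2 := Subgroup.relIndex_eq_zero_of_le_right (le_top : E ⊓ K j ≤ ⊤) h
    rw [Subgroup.relIndex_top_right] at h2
    exact (hK l).1 h2
  have hle2 : ∀ l, (E ⊓ K l).relIndex (E ⊓ K j) ≤ e := by
    intro l
    refine Subgroup.relIndex_inf_le.trans ?_
    rw [hE1, one_mul]
    have h2 := Subgroup.relIndex_le_of_le_right (H := K l) (le_top : E ⊓ K j ≤ ⊤)
      (by rw [Subgroup.relIndex_top_right]; exact (hK l).1)
    rw [Subgroup.relIndex_top_right] at h2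
    exact h2.trans (hK l).2
  have h3 : B.relIndex A ≤ e ^ n := by
    rw [h1]
    refine (Subgroup.relIndex_iInf_le _).trans ?_
    calc ∏ l, (E ⊓ K l).relIndex (E ⊓ K j) ≤ ∏ _l : Fin n, e :=
          Finset.prod_le_prod' fun l _ => hle2 l
      _ = e ^ n := by simp
  have h4 : B.relIndex A ≠ 0 := by
    rw [h1]
    exact Subgroup.relIndex_iInf_ne_zero hne
  have h5 : (B.map φ).relIndex (A.map φ) ≤ B.relIndex A := by
    rw [← Subgroup.relIndex_comap]
    exact Nat.le_of_dvd (Nat.pos_of_ne_zero h4)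
      (Subgroup.relIndex_dvd_of_le_left _ (Subgroup.le_comap_map φ B))
  have h6 : Nat.card (A.map φ) = Nat.card (B.map φ) * (B.map φ).relIndex (A.map φ) := by
    have h7 := Subgroup.relIndex_mul_relIndex ⊥ (B.map φ) (A.map φ) bot_le
      (Subgroup.map_mono hBA)
    rw [Subgroup.relIndex_bot_left, Subgroup.relIndex_bot_left] at h7
    exact h7.symm
  rw [h6, mul_comm]
  exact Nat.mul_le_mul_right _ (h5.trans h3)

section

variable {k L : Type} [Field k] [Field L] [Algebra k L] {c₀ : GQ k L} {E E₁ : IntermediateField k L} {n : ℕ}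
  {S : Fin n → Type} {D : ∀ b, SpecialPoints c₀ E E₁ (S b)} (P : ∀ b, Packets (D b))

/-- the group of permutations of the product of the packets which is the image of the Galois group -/
noncomputable def Phi (δ : ∀ b, (P b).Label) : E.fixingSubgroup →* (∀ b, Equiv.Perm ((P b).Pt (δ b))) :=
  MonoidHom.pi fun b => (P b).rho (δ b)

lemma Pt_finite (b : Fin n) (δ : (P b).Label) : Finite ((P b).Pt δ) := by
  have h1 : {x : (D b).pts | (P b).label x = δ} ⊆ {x : (D b).pts | (P b).size ((P b).label x) ≤ (P b).size δ} := by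
    intro x hx
    have hx' : (P b).label x = δ := hx
    show (P b).size ((P b).label x) ≤ (P b).size δ
    rw [hx']
  exact (((P b).northcott _).subset h1).to_subtype

/-- averages over Galois orbits are averages over the finite group `(Phi P δ).range` -/
lemma avg_orbit (δ : ∀ b, (P b).Label) (x : ∀ b, (P b).Pt (δ b)) (f : (∀ b, (D b).pts) → ℝ) :
    avg (MulAction.orbit E.fixingSubgroup (fun b => (x b).1)) f =
      (∑ᶠ σ : (Phi P δ).range, f fun b => (σ.1 b (x b)).1) / Nat.card (Phi P δ).range := by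
  have hfin : ∀ b, Finite ((P b).Pt (δ b)) := fun b => Pt_finite P b (δ b)
  set R := (Phi P δ).range with hR
  have hRf : Finite R := inferInstance
  let φ : R → (∀ b, (D b).pts) := fun σ b => (σ.1 b (x b)).1
  have hφ : ∀ σ τ, φ σ = φ τ ↔ φ (τ⁻¹ * σ) = φ 1 := by
    intro σ τ
    constructor
    · intro h
      funext j
      have h1 : σ.1 j (x j) = τ.1 j (x j) := Subtype.ext (congrFun h j)
      show ((τ⁻¹ * σ).1 j (x j)).1 = ((1 : R).1 j (x j)).1
      have h2 : (τ⁻¹ * σ).1 j = (τ.1 j)⁻¹ * σ.1 j := rfl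
      have h3 : (1 : R).1 j = 1 := rfl
      rw [h2, h3, Equiv.Perm.mul_apply, h1, Equiv.Perm.one_apply]
      exact congrArg Subtype.val ((τ.1 j).symm_apply_apply (x j))
    · intro h
      funext j
      have h1 : (τ⁻¹ * σ).1 j (x j) = (1 : R).1 j (x j) := Subtype.ext (congrFun h j)
      have h2 : (τ⁻¹ * σ).1 j = (τ.1 j)⁻¹ * σ.1 j := rfl
      have h3 : (1 : R).1 j = 1 := rfl
      rw [h2, h3, Equiv.Perm.mul_apply, Equiv.Perm.one_apply] at h1
      show (σ.1 j (x j)).1 = (τ.1 j (x j)).1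
      have h4 : σ.1 j (x j) = τ.1 j (x j) :=
        ((τ.1 j).apply_symm_apply (σ.1 j (x j))).symm.trans (congrArg (τ.1 j) h1)
      rw [h4]
  have horb : MulAction.orbit E.fixingSubgroup (fun b => (x b).1) = Set.range φ := by
    ext w
    constructor
    · rintro ⟨σ, hw⟩
      exact ⟨⟨Phi P δ σ, ⟨σ, rfl⟩⟩, hw⟩
    · rintro ⟨⟨_, ⟨σ, rfl⟩⟩, hw⟩
      exact ⟨σ, hw⟩
  rw [horb]
  unfold avg
  exact Pool.Agent.Run7.h921.AP.avg_core φ hφ f

/-- the second moment over the product of the packets -/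
lemma moment (hFA : S_FA) (hFB : S_FB) (hFC : S_FC) (hE : E ≤ E₁) (e : ℕ) (δ : ∀ b, (P b).Label)
    (he : ∀ b, ((P b).fix (δ b)).index ≠ 0 ∧ ((P b).fix (δ b)).index ≤ e) (κ : Fin n → ℝ)
    (hκ : ∀ b, (Nat.card ((P b).A (δ b)) : ℝ) ≤ κ b * Nat.card ((P b).gal (δ b)))
    (g : ∀ b, S b → ℝ) (c : Fin n → ℝ) (M w : ℝ) (hM : 1 ≤ M) (hw : 0 ≤ w) (hg : ∀ b s, |g b s| ≤ M) (hc : ∀ b, |c b| ≤ M)
    (hW : ∀ b, ∀ x : (P b).Pt (δ b), ∀ χ : (P b).A (δ b) →* ℂ,
      κ b * ‖∑ᶠ a : (P b).A (δ b), χ a * ((g b (a.1 x).1 - c b : ℝ) : ℂ)‖ ≤ w * Nat.card ((P b).A (δ b))) :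
    ∑ᶠ x : (∀ b, (P b).Pt (δ b)),
      ((∑ᶠ σ : (Phi P δ).range, ∏ b, g b (σ.1 b (x b)).1) / Nat.card (Phi P δ).range - ∏ b, c b) ^ 2 ≤
      4 ^ n * (2 * M) ^ (2 * n) * (e ^ n * w) * Nat.card (∀ b, (P b).Pt (δ b)) := by
  classical
  haveI hfin : ∀ b, Finite ((P b).Pt (δ b)) := fun b => Pt_finite P b (δ b)
  letI : ∀ b, Fintype ((P b).Pt (δ b)) := fun b => Fintype.ofFinite _
  obtain ⟨Φ, hΦ⟩ : ∃ Φ : E.fixingSubgroup →* (∀ b, Equiv.Perm ((P b).Pt (δ b))), Φ = Phi P δ := ⟨_, rfl⟩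
  rw [← hΦ]
  haveI : Finite (∀ b, Equiv.Perm ((P b).Pt (δ b))) := inferInstance
  letI : Fintype Φ.range := Fintype.ofFinite _
  obtain ⟨U, hU⟩ : ∃ U : Subgroup (GQ k L), U = ⨅ l, E₁.fixingSubgroup ⊓ (P l).fix (δ l) := ⟨_, rfl⟩
  obtain ⟨H, hH⟩ : ∃ H : Subgroup Φ.range, H = (U.subgroupOf E.fixingSubgroup).map Φ.rangeRestrict := ⟨_, rfl⟩
  letI : Fintype H := Fintype.ofFinite _
  obtain ⟨ρ, hρ⟩ : ∃ ρ : ∀ b, Φ.range →* Equiv.Perm ((P b).Pt (δ b)), ρ = fun b => (Pi.evalMonoidHom _ b).comp Φ.range.subtype := ⟨_, rfl⟩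
  have hρa : ∀ b (σ : Φ.range), ρ b σ = σ.1 b := by
    intro b σ
    rw [hρ]
    rfl
  have hrange : ∀ b, ((ρ b).comp H.subtype).range = (U.subgroupOf E.fixingSubgroup).map ((P b).rho (δ b)) := by
    intro b
    rw [MonoidHom.range_eq_map, ← Subgroup.map_map, ← MonoidHom.range_eq_map, Subgroup.range_subtype, hH, Subgroup.map_map]
    congr 1
    ext τ : 1
    rw [hρ, hΦ]
    rfl
  have hUle : ∀ b, U ≤ E₁.fixingSubgroup ⊓ (P b).fix (δ b) := by
    intro b
    rw [hU]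
    exact iInf_le _ b
  have hgalA : ∀ b, (P b).gal (δ b) ≤ (P b).A (δ b) := by
    rintro b _ ⟨τ, hτ, rfl⟩
    have hτ' : (τ : GQ k L) ∈ E₁.fixingSubgroup ⊓ (P b).fix (δ b) := hτ
    obtain ⟨a, ha, h⟩ := (P b).recip (δ b) τ hτ'.1 (fun x hx => by
      have h1 : (τ : GQ k L) ∈ ⨅ x : (P b).Pt (δ b), (D b).fixing x.1 := hτ'.2
      rw [Subgroup.mem_iInf] at h1
      exact h1 ⟨x, hx⟩)
    have h2 : (P b).rho (δ b) τ = a := by
      ext x : 1
      exact Subtype.ext (h x).symm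
    rw [h2]
    exact ha
  have himg : ∀ b, (U.subgroupOf E.fixingSubgroup).map ((P b).rho (δ b)) ≤ (P b).gal (δ b) := by
    intro b
    unfold Packets.gal
    apply Subgroup.map_mono
    intro τ hτ
    exact hUle b hτ
  have hcardA : ∀ b, 0 < (Nat.card ((P b).A (δ b)) : ℝ) := fun b => by exact_mod_cast Nat.card_pos
  have hcardG : ∀ b, 0 < (Nat.card ((P b).gal (δ b)) : ℝ) := fun b => by exact_mod_cast Nat.card_pos
  have hκ0 : ∀ b, 0 < κ b := by
    intro b
    by_contra hcon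
    have h1 := hκ b
    have h2 : κ b * Nat.card ((P b).gal (δ b)) ≤ 0 := mul_nonpos_of_nonpos_of_nonneg (not_lt.1 hcon) (hcardG b).le
    linarith [hcardA b]
  have key := hFC n (fun b => (P b).Pt (δ b)) Φ.range H ρ (fun b x => g b x.1) c 1 M (e ^ n * w) (by positivity) le_rfl hM
    (fun b x => hg b _) hc (by
    intro b
    have h1 := hFB hFA ((P b).Pt (δ b)) H ((ρ b).comp H.subtype) ((P b).A (δ b)) (e ^ n * κ b) (2 * M) (w / κ b)
      (fun x => g b x.1 - c b) (div_nonneg hw (hκ0 b).le) (mul_nonneg (by positivity) (hκ0 b).le)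
      (by positivity) ((P b).comm (δ b))
      (fun h => hgalA b (himg b (by rw [← hrange b]; exact ⟨h, rfl⟩)))
      (by
        rw [hrange b, hU]
        have h2 : (Nat.card ((P b).gal (δ b)) : ℝ) ≤ (e : ℝ) ^ n * Nat.card
            (((⨅ l, E₁.fixingSubgroup ⊓ (P l).fix (δ l)).subgroupOf E.fixingSubgroup).map ((P b).rho (δ b))) := by
          exact_mod_cast card_img_le E.fixingSubgroup ((P b).rho (δ b)) E₁.fixingSubgroup (fun l => (P l).fix (δ l)) b
            (IntermediateField.fixingSubgroup_le hE) he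
        calc (Nat.card ((P b).A (δ b)) : ℝ) ≤ κ b * Nat.card ((P b).gal (δ b)) := hκ b
          _ ≤ κ b * ((e : ℝ) ^ n * Nat.card
            (((⨅ l, E₁.fixingSubgroup ⊓ (P l).fix (δ l)).subgroupOf E.fixingSubgroup).map ((P b).rho (δ b)))) :=
              mul_le_mul_of_nonneg_left h2 (hκ0 b).le
          _ = _ := by ring)
      (fun x => by
        have h2 := hg b x.1
        have h3 := hc b
        calc |g b x.1 - c b| ≤ |g b x.1| + |c b| := abs_sub _ _
          _ ≤ 2 * M := by linarith)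
      (fun x χ => by
        have h2 := hW b x χ
        rw [div_mul_eq_mul_div, le_div_iff₀ (hκ0 b), mul_comm _ (κ b)]
        exact h2)
    refine h1.trans (le_of_eq ?_)
    have h3 : κ b ≠ 0 := (hκ0 b).ne'
    field_simp)
  rw [finsum_eq_sum_of_fintype]
  have e1 : ∀ x : (∀ b, (P b).Pt (δ b)), (∑ᶠ σ : Φ.range, ∏ b, g b (σ.1 b (x b)).1) =
      ∑ σ : Φ.range, ∏ b, g b (ρ b σ (x b)).1 := by
    intro x
    rw [finsum_eq_sum_of_fintype]
    simp only [hρa]
  simp_rw [e1, Nat.card_eq_fintype_card]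
  refine key.trans (le_of_eq ?_)
  ring

end

end Pool.Agent.Run7.h641.SV
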