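import Pool.Agent.Run7.h293.EQ.Shim

/-!
# Packets of special points of Shimura varieties
-/

set_option autoImplicit false

open Filter Topology MeasureTheory
open Pool.Agent.Run7.h293.EQ

namespace Pool.Agent.Run7.h641.SV

/-- The special points of a component `S` of a Shimura variety (`SpecialPoints`, helper293), divided into packets
(the special points with the same discriminant, or the orbits of the class group of a torus and their Galois
conjugates).

* `label x` is the packet of `x`, `size` the discriminant of a packet;
* `A δ` is the group (class group of the torus) which acts on the packet `δ`, or its subgroup which is the image of the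
  Galois group. -/
structure Packets {k L : Type} [Field k] [Field L] [Algebra k L] {c₀ : GQ k L} {E E₁ : IntermediateField k L} {S : Type}
    (D : SpecialPoints c₀ E E₁ S) where
  Label : Type
  label : D.pts → Label
  size : Label → ℝ
  /-- there are only finitely many special points of bounded discriminant -/
  northcott : ∀ R : ℝ, {x : D.pts | size (label x) ≤ R}.Finite
  /-- the packets are stable under the Galois group -/
  label_smul : ∀ (g : E.fixingSubgroup) (x : D.pts), label (g • x) = label x
  /-- the points of a packet have the same field -/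
  field_label : ∀ x y : D.pts, label x = label y → D.field x = D.field y
  A : ∀ δ, Subgroup (Equiv.Perm {x : D.pts // label x = δ})
  comm : ∀ δ, ∀ a ∈ A δ, ∀ b ∈ A δ, a * b = b * a
  /-- reciprocity law: the automorphisms which fix `E₁` and the field of the points of the packet act through `A δ` -/
  recip : ∀ (δ : Label) (h : E.fixingSubgroup), (h : GQ k L) ∈ E₁.fixingSubgroup →
    (∀ x, label x = δ → (h : GQ k L) ∈ D.fixing x) →
      ∃ a ∈ A δ, ∀ x : {x : D.pts // label x = δ}, ((a x : {x : D.pts // label x = δ}) : D.pts) = h • (x : D.pts)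

namespace Packets

variable {k L : Type} [Field k] [Field L] [Algebra k L] {c₀ : GQ k L} {E E₁ : IntermediateField k L} {S : Type}
  {D : SpecialPoints c₀ E E₁ S} (P : Packets D)

/-- the points of the packet `δ` -/
abbrev Pt (δ : P.Label) : Type := {x : D.pts // P.label x = δ}

/-- an element of the Galois group moves the points of a packet -/
def move {δ : P.Label} (σ : E.fixingSubgroup) (x : P.Pt δ) : P.Pt δ := ⟨σ • x.1, (P.label_smul σ x.1).trans x.2⟩

lemma move_left {δ : P.Label} (σ : E.fixingSubgroup) : Function.LeftInverse (P.move (δ := δ) σ⁻¹) (P.move σ) :=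
  fun x => Subtype.ext (inv_smul_smul σ x.1)

lemma move_right {δ : P.Label} (σ : E.fixingSubgroup) : Function.RightInverse (P.move (δ := δ) σ⁻¹) (P.move σ) :=
  fun x => Subtype.ext (smul_inv_smul σ x.1)

/-- the same as a permutation -/
def perm (δ : P.Label) (σ : E.fixingSubgroup) : Equiv.Perm (P.Pt δ) := ⟨P.move σ, P.move σ⁻¹, P.move_left σ, P.move_right σ⟩

lemma perm_one (δ : P.Label) : P.perm δ 1 = 1 := Equiv.ext fun x => Subtype.ext (one_smul _ x.1)

lemma perm_mul (δ : P.Label) (σ τ : E.fixingSubgroup) : P.perm δ (σ * τ) = P.perm δ σ * P.perm δ τ :=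
  Equiv.ext fun x => Subtype.ext (mul_smul σ τ x.1)

/-- the Galois action on a packet -/
def rho (δ : P.Label) : E.fixingSubgroup →* Equiv.Perm (P.Pt δ) := ⟨⟨P.perm δ, P.perm_one δ⟩, P.perm_mul δ⟩

/-- the automorphisms which fix the field of the points of the packet -/
def fix (δ : P.Label) : Subgroup (GQ k L) := ⨅ x : P.Pt δ, D.fixing x.1

/-- the group of permutations of the packet which is the image of the Galois group of `E₁` and the field of the points -/
noncomputable def gal (δ : P.Label) : Subgroup (Equiv.Perm (P.Pt δ)) :=
  ((E₁.fixingSubgroup ⊓ P.fix δ).subgroupOf E.fixingSubgroup).map (P.rho δ)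

/-- the order of `A δ` -/
noncomputable def order (δ : P.Label) : ℕ := Nat.card (P.A δ)

/-- the order of the image of the Galois group -/
noncomputable def galOrder (δ : P.Label) : ℕ := Nat.card (P.gal δ)

/-- the group `A δ` -/
def Grp (δ : P.Label) : Type := P.A δ

instance (δ : P.Label) : Group (P.Grp δ) := Subgroup.toGroup (P.A δ)

/-- the characters of `A δ` -/
def Chr (δ : P.Label) : Type := P.Grp δ →* ℂ

/-- the value of a character -/
def ev {δ : P.Label} (χ : P.Chr δ) (a : P.Grp δ) : ℂ := DFunLike.coe (F := P.Grp δ →* ℂ) χ a

/-- `a` as a permutation of the packet -/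
def toPerm {δ : P.Label} (a : P.Grp δ) : Equiv.Perm (P.Pt δ) := a.1

/-- the point `a x` of `S` -/
def pos {δ : P.Label} (a : P.Grp δ) (x : P.Pt δ) : S := (P.toPerm a x).1

/-- The Weyl sums of the packets against the characters of `A δ` are small, uniformly in the character, also after
multiplication with (a bound `κ δ` for) the index of the image of the Galois group in `A δ`. -/
def Weyl [TopologicalSpace S] [MeasurableSpace S] (m : Measure S) : Prop :=
  ∃ κ : P.Label → ℝ, (∀ δ, (P.order δ : ℝ) ≤ κ δ * P.galOrder δ) ∧
    ∀ f : C(S, ℝ), HasCompactSupport f → ∀ ε : ℝ, 0 < ε → ∃ R : ℝ, ∀ δ, R ≤ P.size δ → ∀ (x : P.Pt δ) (χ : P.Chr δ),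
      κ δ * ‖∑ᶠ a : P.Grp δ, P.ev χ a * ((f (P.pos a x) - ∫ s, f s ∂m : ℝ) : ℂ)‖ ≤ ε * P.order δ

end Packets

end Pool.Agent.Run7.h641.SV
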