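import Pool.Agent.Run7.h641.SV.Core
import Pool.Agent.Run7.h762.EQ.C
import Pool.Agent.Run7.h762.EQ.D

/-!
# Almost all special points of products of Shimura varieties: assembly
-/

set_option autoImplicit false
set_option linter.unusedSectionVars false
set_option linter.style.haveILetI false

open Filter Topology MeasureTheory
open Pool.Agent.Run7.h293.EQ Pool.Agent.Run7.h641.AP

namespace Pool.Agent.Run7.h641.SV

/-- functions with compact support, extended to the one-point compactification -/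
abbrev Tst (Y : Type) [TopologicalSpace Y] : Type := {g : C(OnePoint Y, ℝ) // HasCompactSupport fun y : Y => g (y : OnePoint Y)}

/-- the average as a linear functional -/
noncomputable def Lin {X T : Type} [TopologicalSpace T] (O : Set X) (hO : O.Finite) (π : X → T) : C(T, ℝ) →ₗ[ℝ] ℝ where
  toFun f := avg O (fun z => f (π z))
  map_add' f g := by
    rw [avg_fin hO, avg_fin hO, avg_fin hO, ← add_div, ← Finset.sum_add_distrib]
    rfl
  map_smul' c f := by
    rw [avg_fin hO, avg_fin hO]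
    simp only [ContinuousMap.smul_apply, smul_eq_mul, RingHom.id_apply]
    rw [← Finset.mul_sum, mul_div_assoc]

lemma avg_sub {X : Type} {O : Set X} (hO : O.Finite) (f g : X → ℝ) : avg O f - avg O g = avg O (fun z => f z - g z) := by
  rw [avg_fin hO, avg_fin hO, avg_fin hO, ← sub_div, ← Finset.sum_sub_distrib]

section

variable {k L : Type} [Field k] [Field L] [Algebra k L] {c₀ : GQ k L} {E E₁ : IntermediateField k L} {n : ℕ}
  {S : Fin n → Type} [∀ b, TopologicalSpace (S b)] [∀ b, T2Space (S b)]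
  [∀ b, LocallyCompactSpace (S b)] [∀ b, SecondCountableTopology (S b)]
  [∀ b, MeasurableSpace (S b)] [∀ b, BorelSpace (S b)] (m : ∀ b, Measure (S b))
  [∀ b, IsProbabilityMeasure (m b)] (D : ∀ b, SpecialPoints c₀ E E₁ (S b))

/-- the test functionals -/
noncomputable def tst (G : ∀ b, Tst (S b)) (x : ∀ b, (D b).pts) : ℝ :=
  avg (MulAction.orbit E.fixingSubgroup x) (fun y => ∏ b, (G b).1 (((y b : (D b).pts) : S b) : OnePoint (S b))) -
    ∏ b, ∫ s, (G b).1 (s : OnePoint (S b)) ∂(m b)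

lemma orbit_finite (x : ∀ b, (D b).pts) : (MulAction.orbit E.fixingSubgroup x).Finite := by
  have h1 : MulAction.orbit E.fixingSubgroup x ⊆ {y | ∀ b, y b ∈ MulAction.orbit E.fixingSubgroup (x b)} := by
    rintro _ ⟨g, rfl⟩ b
    exact ⟨g, rfl⟩
  exact (Set.Finite.pi' (fun b => (D b).algebraic (x b))).subset h1

/-- a dense sequence of tests is enough -/
lemma tst_tendsto (G : ℕ → ∀ b, Tst (S b)) (hG : DenseRange G) (x : ℕ → ∀ b, (D b).pts)
    (h : ∀ l, Tendsto (fun i => tst m D (G l) (x i)) atTop (𝓝 0)) (g : ∀ b, Tst (S b)) :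
    Tendsto (fun i => tst m D g (x i)) atTop (𝓝 0) := by
  classical
  rw [Metric.tendsto_atTop]
  intro ε hε
  obtain ⟨B, hB⟩ : ∃ B : ℝ, B = 2 + ∑ j, ‖(g j).1‖ := ⟨_, rfl⟩
  have hgB1 : ∀ j, ‖(g j).1‖ ≤ B - 1 := by
    intro j
    rw [hB]
    have := Finset.single_le_sum (f := fun j => ‖(g j).1‖) (fun j _ => norm_nonneg _) (Finset.mem_univ j)
    linarith
  have hB1 : 1 ≤ B := by
    rw [hB]
    have : 0 ≤ ∑ j, ‖(g j).1‖ := Finset.sum_nonneg (fun j _ => norm_nonneg _)
    linarith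
  obtain ⟨δ, hδ⟩ : ∃ δ, δ = min 1 (ε / (4 * (n + 1) * B ^ n)) := ⟨_, rfl⟩
  have hδ0 : 0 < δ := by
    rw [hδ]
    have : 0 < ε / (4 * (n + 1) * B ^ n) := by positivity
    exact lt_min one_pos this
  have hδ1 : δ ≤ 1 := by rw [hδ]; exact min_le_left _ _
  have hδn : (n : ℝ) * (B ^ n * δ) ≤ ε / 4 := by
    have h0 : δ ≤ ε / (4 * (n + 1) * B ^ n) := by rw [hδ]; exact min_le_right _ _
    have h1 : (n : ℝ) * (B ^ n * δ) ≤ (n : ℝ) * (B ^ n * (ε / (4 * (n + 1) * B ^ n))) := by gcongr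
    have h2 : (n : ℝ) * (B ^ n * (ε / (4 * (n + 1) * B ^ n))) = (ε / 4) * (n / (n + 1)) := by
      have : B ^ n ≠ 0 := by positivity
      field_simp
    have h3 : (n : ℝ) / (n + 1) ≤ 1 := by
      rw [div_le_one (by positivity)]
      linarith
    have h4 : (ε / 4) * ((n : ℝ) / (n + 1)) ≤ ε / 4 := mul_le_of_le_one_right (by positivity) h3
    linarith
  obtain ⟨l, hl⟩ : ∃ l, dist g (G l) < δ := by
    obtain ⟨y, hy1, ⟨l, rfl⟩⟩ := Metric.dense_iff.1 hG g δ hδ0
    refine ⟨l, ?_⟩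
    rw [dist_comm]
    exact hy1
  have hgl : ∀ j, ‖(g j).1 - (G l j).1‖ ≤ δ := by
    intro j
    rw [← dist_eq_norm]
    exact (dist_le_pi_dist g (G l) j).trans hl.le
  have hglB : ∀ j, ‖(G l j).1‖ ≤ B := by
    intro j
    have h1 : ‖(G l j).1‖ ≤ ‖(g j).1‖ + ‖(g j).1 - (G l j).1‖ := by
      have := norm_sub_norm_le (G l j).1 (g j).1
      rw [norm_sub_rev] at this
      linarith
    have := hgl j
    have := hgB1 j
    linarith
  have hgB : ∀ j, ‖(g j).1‖ ≤ B := fun j => by have := hgB1 j; linarith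
  have hpt : ∀ y : (∀ j, OnePoint (S j)), |∏ j, (g j).1 (y j) - ∏ j, (G l j).1 (y j)| ≤ ε / 4 := by
    intro y
    have := Pool.Agent.Run7.h762.EQ.abs_prod_sub_prod_le Finset.univ (fun j => (g j).1 (y j)) (fun j => (G l j).1 (y j)) B δ hB1
      (fun j => ((g j).1.norm_coe_le_norm _).trans (hgB j)) (fun j => ((G l j).1.norm_coe_le_norm _).trans (hglB j))
      (fun j => (((g j).1 - (G l j).1).norm_coe_le_norm (y j)).trans (hgl j))
    rw [Finset.card_univ, Fintype.card_fin] at this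
    exact this.trans hδn
  have hIb : ∀ (u : ∀ j, C(OnePoint (S j), ℝ)) (b : ℝ) j, ‖u j‖ ≤ b → |∫ y, u j (y : OnePoint (S j)) ∂(m j)| ≤ b := by
    intro u b j hu
    have := norm_integral_le_of_norm_le_const (μ := m j) (f := fun y : S j => u j (y : OnePoint (S j))) (C := b)
      (Eventually.of_forall (fun y => ((u j).norm_coe_le_norm _).trans hu))
    simpa using this
  have hint : ∀ (u : ∀ j, C(OnePoint (S j), ℝ)) j, Integrable (fun y : S j => u j (y : OnePoint (S j))) (m j) := by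
    intro u j
    apply Integrable.of_bound (C := ‖u j‖) (((u j).continuous.comp OnePoint.continuous_coe).aestronglyMeasurable)
    exact Eventually.of_forall (fun y => (u j).norm_coe_le_norm _)
  have hI : |∏ j, ∫ y, (g j).1 (y : OnePoint (S j)) ∂(m j) - ∏ j, ∫ y, (G l j).1 (y : OnePoint (S j)) ∂(m j)| ≤ ε / 4 := by
    have := Pool.Agent.Run7.h762.EQ.abs_prod_sub_prod_le Finset.univ (fun j => ∫ y, (g j).1 (y : OnePoint (S j)) ∂(m j))
      (fun j => ∫ y, (G l j).1 (y : OnePoint (S j)) ∂(m j)) B δ hB1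
      (fun j => hIb (fun j => (g j).1) B j (hgB j)) (fun j => hIb (fun j => (G l j).1) B j (hglB j)) (fun j => by
        have h1 := hIb (fun j => (g j).1 - (G l j).1) δ j (hgl j)
        have h2 : ∫ y, ((g j).1 - (G l j).1) (y : OnePoint (S j)) ∂(m j) =
            ∫ y, (g j).1 (y : OnePoint (S j)) ∂(m j) - ∫ y, (G l j).1 (y : OnePoint (S j)) ∂(m j) :=
          integral_sub (hint (fun j => (g j).1) j) (hint (fun j => (G l j).1) j)
        rw [← h2]
        exact h1)
    rw [Finset.card_univ, Fintype.card_fin] at this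
    exact this.trans hδn
  obtain ⟨N, hN⟩ := Metric.tendsto_atTop.1 (h l) (ε / 4) (by positivity)
  refine ⟨N, fun i hi => ?_⟩
  have h1 := hN i hi
  rw [Real.dist_eq, sub_zero] at h1
  have h2 : |avg (MulAction.orbit E.fixingSubgroup (x i)) (fun y => ∏ b, (g b).1 (((y b : (D b).pts) : S b) : OnePoint (S b))) -
      avg (MulAction.orbit E.fixingSubgroup (x i)) (fun y => ∏ b, (G l b).1 (((y b : (D b).pts) : S b) : OnePoint (S b)))| ≤ ε / 4 := by
    rw [avg_sub (orbit_finite D (x i))]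
    exact avg_abs_le (orbit_finite D (x i)) _ (by positivity) (fun y => hpt (fun b => (((y b : (D b).pts) : S b) : OnePoint (S b))))
  rw [Real.dist_eq, sub_zero]
  have e3 : tst m D g (x i) =
      (avg (MulAction.orbit E.fixingSubgroup (x i)) (fun y => ∏ b, (g b).1 (((y b : (D b).pts) : S b) : OnePoint (S b))) -
      avg (MulAction.orbit E.fixingSubgroup (x i)) (fun y => ∏ b, (G l b).1 (((y b : (D b).pts) : S b) : OnePoint (S b)))) +
      tst m D (G l) (x i) +
      (-(∏ j, ∫ y, (g j).1 (y : OnePoint (S j)) ∂(m j) - ∏ j, ∫ y, (G l j).1 (y : OnePoint (S j)) ∂(m j))) := by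
    unfold tst
    ring
  rw [e3]
  refine lt_of_le_of_lt (abs_add_three _ _ _) ?_
  rw [abs_neg]
  linarith

/-- the tests are enough -/
lemma equi_of_tst (x : ℕ → ∀ b, (D b).pts) (h : ∀ g : ∀ b, Tst (S b), Tendsto (fun i => tst m D g (x i)) atTop (𝓝 0))
    (f : C((∀ b, S b), ℝ)) (hf : HasCompactSupport f) :
    Tendsto (fun i => avg (MulAction.orbit E.fixingSubgroup (x i)) fun y => f fun b => (y b : S b)) atTop
      (𝓝 (∫ s, f s ∂(Measure.pi m))) := by
  classical
  refine tendsto_of_prod (Measure.pi m) (fun i => Lin _ (orbit_finite D (x i)) (fun (y : ∀ b, (D b).pts) b => (y b : S b)))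
    (fun i f c hc hfc => avg_abs_le (orbit_finite D (x i)) _ hc (fun z => hfc _)) ?_ f hf
  rintro g ⟨u, hu, hgu⟩
  have hemb : ∀ b, IsOpenEmbedding (fun y : S b => (y : OnePoint (S b))) := fun b => OnePoint.isOpenEmbedding_coe
  have hext : ∀ b (y : S b), Function.extend (fun y : S b => (y : OnePoint (S b))) (u b) 0 (y : OnePoint (S b)) = u b y :=
    fun b y => (hemb b).injective.extend_apply _ _ _
  let T : ∀ b, Tst (S b) := fun b => ⟨⟨Function.extend (fun y : S b => (y : OnePoint (S b))) (u b) 0,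
    Pool.Agent.Run7.h762.EQ.continuous_extend (hemb b) (u b).continuous (hu b)⟩, by
      have e : (fun y : S b => Function.extend (fun y : S b => (y : OnePoint (S b))) (u b) 0 (y : OnePoint (S b))) = u b :=
        funext (hext b)
      show HasCompactSupport (fun y : S b => Function.extend (fun y : S b => (y : OnePoint (S b))) (u b) 0 (y : OnePoint (S b)))
      rw [e]
      exact hu b⟩
  have hT : ∀ b (y : S b), (T b).1 (y : OnePoint (S b)) = u b y := hext
  have hgT : ∀ z : (∀ b, S b), g z = ∏ b, (T b).1 (z b : OnePoint (S b)) := by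
    intro z
    rw [hgu]
    exact Finset.prod_congr rfl (fun b _ => (hT b (z b)).symm)
  have hI : ∫ z, g z ∂(Measure.pi m) = ∏ b, ∫ s, (T b).1 (s : OnePoint (S b)) ∂(m b) := by
    simp_rw [hgT]
    exact integral_fintype_prod_eq_prod (fun b => fun y : S b => (T b).1 (y : OnePoint (S b)))
  refine ⟨?_, ?_⟩
  · apply Integrable.of_bound (C := ∏ b, ‖(T b).1‖) g.continuous.aestronglyMeasurable
    refine Eventually.of_forall (fun z => ?_)
    rw [hgT, norm_prod]
    exact Finset.prod_le_prod (fun b _ => norm_nonneg _) (fun b _ => (T b).1.norm_coe_le_norm _)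
  · rw [hI]
    have h1 := (h T).add_const (∏ b, ∫ s, (T b).1 (s : OnePoint (S b)) ∂(m b))
    rw [zero_add] at h1
    refine h1.congr (fun i => ?_)
    unfold tst
    rw [sub_add_cancel]
    show _ = avg (MulAction.orbit E.fixingSubgroup (x i)) (fun y => g (fun b => (y b : S b)))
    congr 1
    funext y
    exact (hgT _).symm

end

section second

variable {k L : Type} [Field k] [Field L] [Algebra k L] {c₀ : GQ k L} {E E₁ : IntermediateField k L} {n : ℕ}
  {S : Fin n → Type} [∀ b, TopologicalSpace (S b)] [∀ b, T2Space (S b)]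
  [∀ b, LocallyCompactSpace (S b)] [∀ b, SecondCountableTopology (S b)]
  [∀ b, MeasurableSpace (S b)] [∀ b, BorelSpace (S b)] (m : ∀ b, Measure (S b))
  [∀ b, IsProbabilityMeasure (m b)] {D : ∀ b, SpecialPoints c₀ E E₁ (S b)} (P : ∀ b, Packets (D b))

lemma emb_inj (δ : ∀ b, (P b).Label) : Function.Injective (fun (x : ∀ b, (P b).Pt (δ b)) (b : Fin n) => (x b).1) := by
  intro x y h
  funext b
  exact Subtype.ext (congrFun h b)

lemma emb_image (δ : ∀ b, (P b).Label) : {x : ∀ b, (D b).pts | (fun b => (P b).label (x b)) = δ} =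
    (fun (x : ∀ b, (P b).Pt (δ b)) (b : Fin n) => (x b).1) '' Set.univ := by
  ext x
  constructor
  · intro h
    exact ⟨fun b => ⟨x b, congrFun h b⟩, Set.mem_univ _, rfl⟩
  · rintro ⟨y, -, rfl⟩
    funext b
    exact (y b).2

/-- the second moment of the tests -/
lemma moment2 (hFA : S_FA) (hFB : S_FB) (hFC : S_FC) (hE : E ≤ E₁) (e : ℕ) (δ : ∀ b, (P b).Label)
    (he : ∀ b, ((P b).fix (δ b)).index ≠ 0 ∧ ((P b).fix (δ b)).index ≤ e) (κ : Fin n → ℝ)
    (hκ : ∀ b, (Nat.card ((P b).A (δ b)) : ℝ) ≤ κ b * Nat.card ((P b).gal (δ b)))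
    (g : ∀ b, Tst (S b)) (M w : ℝ) (hM : 1 ≤ M) (hw : 0 ≤ w) (hg : ∀ b, ‖(g b).1‖ ≤ M)
    (hW : ∀ b, ∀ x : (P b).Pt (δ b), ∀ χ : (P b).A (δ b) →* ℂ,
      κ b * ‖∑ᶠ a : (P b).A (δ b), χ a * (((g b).1 ((a.1 x).1 : OnePoint (S b)) -
        ∫ s, (g b).1 (s : OnePoint (S b)) ∂(m b) : ℝ) : ℂ)‖ ≤ w * Nat.card ((P b).A (δ b))) :
    ∑ᶠ x ∈ {x : ∀ b, (D b).pts | (fun b => (P b).label (x b)) = δ}, tst m D g x ^ 2 ≤
      4 ^ n * (2 * M) ^ (2 * n) * (e ^ n * w) * ({x : ∀ b, (D b).pts | (fun b => (P b).label (x b)) = δ}.ncard : ℝ) := by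
  have hcM : ∀ b, |∫ s, (g b).1 (s : OnePoint (S b)) ∂(m b)| ≤ M := by
    intro b
    have := norm_integral_le_of_norm_le_const (μ := m b) (f := fun y : S b => (g b).1 (y : OnePoint (S b))) (C := M)
      (Eventually.of_forall (fun y => ((g b).1.norm_coe_le_norm _).trans (hg b)))
    simpa using this
  have h := moment P hFA hFB hFC hE e δ he κ hκ (fun b s => (g b).1 (s : OnePoint (S b)))
    (fun b => ∫ s, (g b).1 (s : OnePoint (S b)) ∂(m b)) M w hM hw (fun b s => ((g b).1.norm_coe_le_norm _).trans (hg b)) hcM hW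
  rw [emb_image P δ, finsum_mem_image (emb_inj P δ).injOn, finsum_mem_univ, Set.ncard_image_of_injective _ (emb_inj P δ),
    Set.ncard_univ]
  have e : ∀ x : (∀ b, (P b).Pt (δ b)), tst m D g (fun b => (x b).1) =
      (∑ᶠ σ : (Phi P δ).range, ∏ b, (g b).1 ((σ.1 b (x b)).1 : OnePoint (S b))) / Nat.card (Phi P δ).range -
        ∏ b, ∫ s, (g b).1 (s : OnePoint (S b)) ∂(m b) := by
    intro x
    unfold tst
    rw [avg_orbit P δ x]
  simp_rw [e]
  exact h

end second

end Pool.Agent.Run7.h641.SV
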