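import Pool.Agent.Run7.h641.SV.Fin

/-!
# Almost all special points of products of Shimura varieties: the exceptional set
-/

set_option autoImplicit false
set_option linter.unusedSectionVars false
set_option linter.style.haveILetI false

open Filter Topology MeasureTheory
open Pool.Agent.Run7.h293.EQ Pool.Agent.Run7.h641.AP

namespace Pool.Agent.Run7.h641.SV

lemma fix_index {k L : Type} [Field k] [Field L] [Algebra k L] [CharZero k] [IsAlgClosure k L] {c₀ : GQ k L}
    {E E₁ : IntermediateField k L} {S : Type} {D : SpecialPoints c₀ E E₁ S} (P : Packets D) (δ : P.Label) :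
    (P.fix δ).index ≠ 0 ∧ (P.fix δ).index ≤ D.d + 1 := by
  rcases isEmpty_or_nonempty (P.Pt δ) with h | ⟨⟨x⟩⟩
  · have e : P.fix δ = ⊤ := by
      unfold Packets.fix
      rw [iInf_of_empty]
    rw [e, Subgroup.index_top]
    exact ⟨one_ne_zero, Nat.le_add_left 1 _⟩
  · have e : P.fix δ = D.fixing x.1 := by
      apply le_antisymm
      · exact iInf_le (fun x : P.Pt δ => D.fixing x.1) x
      · refine le_iInf (fun y => ?_)
        unfold SpecialPoints.fixing
        rw [P.field_label x.1 y.1 (x.2.trans y.2.symm)]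
    rw [e]
    have h1 := D.index_fixing x.1
    exact ⟨h1.1, h1.2.trans (Nat.le_succ _)⟩

variable {k L : Type} [Field k] [Field L] [Algebra k L] [CharZero k] [IsAlgClosure k L] {c₀ : GQ k L} {E E₁ : IntermediateField k L}
  {n : ℕ} {S : Fin n → Type} [∀ b, TopologicalSpace (S b)] [∀ b, T2Space (S b)]
  [∀ b, LocallyCompactSpace (S b)] [∀ b, SecondCountableTopology (S b)]
  [∀ b, MeasurableSpace (S b)] [∀ b, BorelSpace (S b)] (m : ∀ b, Measure (S b))
  [∀ b, IsProbabilityMeasure (m b)] {D : ∀ b, SpecialPoints c₀ E E₁ (S b)} (P : ∀ b, Packets (D b))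

theorem main (hFA : S_FA) (hFB : S_FB) (hFC : S_FC) (hDG : S_DG) (hE : E ≤ E₁) (hn : 0 < n)
    (hW : ∀ b, (P b).Weyl (m b)) :
    ∃ Z : Set (∀ b, (D b).pts),
      (∀ ε : ℝ, 0 < ε → ∃ R : ℝ, ∀ δ : ∀ b, (P b).Label, (∀ b, R ≤ (P b).size (δ b)) →
        ({x : ∀ b, (D b).pts | x ∈ Z ∧ ∀ b, (P b).label (x b) = δ b}.ncard : ℝ) ≤
          ε * ({x : ∀ b, (D b).pts | ∀ b, (P b).label (x b) = δ b}.ncard : ℝ)) ∧
      ∀ x : ℕ → ∀ b, (D b).pts, (∀ i, x i ∉ Z) → (∀ b, Tendsto (fun i => (P b).size ((P b).label (x i b))) atTop atTop) →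
        ∀ f : C((∀ b, S b), ℝ), HasCompactSupport f →
          Tendsto (fun i => avg (MulAction.orbit E.fixingSubgroup (x i)) fun y => f fun b => (y b : S b)) atTop
            (𝓝 (∫ s, f s ∂(Measure.pi m))) := by
  classical
  haveI : ∀ b, SecondCountableTopology (OnePoint (S b)) := fun b => Pool.Agent.Run7.h921.AP.sc_core (S b)
  haveI : ∀ b, SecondCountableTopology C(OnePoint (S b), ℝ) := fun b => inferInstance
  haveI : SecondCountableTopology (∀ b, Tst (S b)) := inferInstance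
  haveI : Nonempty (∀ b, Tst (S b)) := ⟨fun b => ⟨0, HasCompactSupport.zero⟩⟩
  obtain ⟨G, hG⟩ : ∃ G : ℕ → ∀ b, Tst (S b), DenseRange G :=
    ⟨TopologicalSpace.denseSeq _, TopologicalSpace.denseRange_denseSeq _⟩
  choose κ hκ hWeyl using hW
  obtain ⟨e, he⟩ : ∃ e : ℕ, e = 1 + ∑ b, (D b).d := ⟨_, rfl⟩
  have he1 : ∀ b (δ : (P b).Label), ((P b).fix δ).index ≠ 0 ∧ ((P b).fix δ).index ≤ e := by
    intro b δ
    have h1 := fix_index (P b) δ
    refine ⟨h1.1, h1.2.trans ?_⟩
    rw [he, add_comm]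
    exact Nat.add_le_add_left (Finset.single_le_sum (f := fun b => (D b).d) (fun _ _ => Nat.zero_le _) (Finset.mem_univ b)) 1
  have he0 : (0 : ℝ) < e := by
    have : 0 < e := by omega
    exact_mod_cast this
  have hne : (Finset.univ : Finset (Fin n)).Nonempty := ⟨⟨0, hn⟩, Finset.mem_univ _⟩
  obtain ⟨r, hr⟩ : ∃ r : (∀ b, (P b).Label) → ℝ, r = fun δ => Finset.univ.inf' hne (fun b => (P b).size (δ b)) := ⟨_, rfl⟩
  have hrle : ∀ (R : ℝ) (δ : ∀ b, (P b).Label), R ≤ r δ ↔ ∀ b, R ≤ (P b).size (δ b) := by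
    intro R δ
    rw [hr, Finset.le_inf'_iff]
    exact ⟨fun h b => h b (Finset.mem_univ b), fun h b _ => h b⟩
  have hset : ∀ δ : ∀ b, (P b).Label, {x : ∀ b, (D b).pts | (fun b => (P b).label (x b)) = δ} =
      {x | ∀ b, (P b).label (x b) = δ b} := by
    intro δ
    ext x
    exact funext_iff
  obtain ⟨Z, hZ1, hZ2⟩ := hDG (∀ b, (D b).pts) (∀ b, (P b).Label) (fun x b => (P b).label (x b)) r
    (fun l x => tst m D (G l) x)
    (fun δ => by
      rw [hset]
      have hf : ∀ b, {x : (D b).pts | (P b).label x = δ b}.Finite := fun b => by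
        refine ((P b).northcott ((P b).size (δ b))).subset (fun x hx => ?_)
        have hx' : (P b).label x = δ b := hx
        show (P b).size ((P b).label x) ≤ (P b).size (δ b)
        rw [hx']
      exact Set.Finite.pi' hf)
    (by
      intro l ε hε
      obtain ⟨M, hM⟩ : ∃ M : ℝ, M = 1 + ∑ j, ‖(G l j).1‖ := ⟨_, rfl⟩
      have hM1 : 1 ≤ M := by
        rw [hM]
        have : 0 ≤ ∑ j, ‖(G l j).1‖ := Finset.sum_nonneg (fun j _ => norm_nonneg _)
        linarith
      have hgM : ∀ j, ‖(G l j).1‖ ≤ M := by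
        intro j
        rw [hM]
        have := Finset.single_le_sum (f := fun j => ‖(G l j).1‖) (fun j _ => norm_nonneg _) (Finset.mem_univ j)
        linarith
      obtain ⟨w, hw⟩ : ∃ w : ℝ, w = ε / (4 ^ n * (2 * M) ^ (2 * n) * (e : ℝ) ^ n) := ⟨_, rfl⟩
      have hw0 : 0 < w := by rw [hw]; positivity
      choose B hB using fun b => hWeyl b ⟨fun s => (G l b).1 (s : OnePoint (S b)), (G l b).1.continuous.comp OnePoint.continuous_coe⟩
        (G l b).2 w hw0
      refine ⟨∑ j, |B j|, fun δ hδ => ?_⟩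
      have hδ' := (hrle _ δ).1 hδ
      have h1 := moment2 m P hFA hFB hFC hE e δ (fun b => he1 b (δ b)) (fun b => κ b (δ b)) (fun b => hκ b (δ b)) (G l) M w hM1
        hw0.le hgM (fun b x χ => hB b (δ b) (by
          refine le_trans ?_ (hδ' b)
          exact (le_abs_self _).trans (Finset.single_le_sum (f := fun j => |B j|) (fun j _ => abs_nonneg _) (Finset.mem_univ b))) x χ)
      have h2 : (4 : ℝ) ^ n * (2 * M) ^ (2 * n) * (e ^ n * w) = ε := by
        have h3 : M ≠ 0 := by linarith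
        have h4 : (e : ℝ) ≠ 0 := he0.ne'
        rw [hw]
        field_simp
      rw [h2] at h1
      exact h1)
  refine ⟨Z, ?_, ?_⟩
  · intro ε hε
    obtain ⟨R, hR⟩ := hZ1 ε hε
    refine ⟨R, fun δ hδ => ?_⟩
    have := hR δ ((hrle R δ).2 hδ)
    simp only [funext_iff] at this
    exact this
  · intro x hx hxd f hf
    apply equi_of_tst m D x (fun g => tst_tendsto m D G hG x (fun l => ?_) g) f hf
    refine hZ2 x hx ?_ l
    rw [tendsto_atTop]
    intro R
    have : ∀ᶠ i in atTop, ∀ b, R ≤ (P b).size ((P b).label (x i b)) := by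
      rw [eventually_all]
      exact fun b => (hxd b).eventually_ge_atTop R
    filter_upwards [this] with i hi
    exact (hrle R _).2 hi

/-- the same with sequences which avoid the exceptional set eventually, and for strict sequences -/
theorem main2 (hFA : S_FA) (hFB : S_FB) (hFC : S_FC) (hDG : S_DG) (hE : E ≤ E₁) (hn : 0 < n)
    (hW : ∀ b, (P b).Weyl (m b)) :
    ∃ Z : Set (∀ b, (D b).pts),
      (∀ ε : ℝ, 0 < ε → ∃ R : ℝ, ∀ δ : ∀ b, (P b).Label, (∀ b, R ≤ (P b).size (δ b)) →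
        ({x : ∀ b, (D b).pts | x ∈ Z ∧ ∀ b, (P b).label (x b) = δ b}.ncard : ℝ) ≤
          ε * ({x : ∀ b, (D b).pts | ∀ b, (P b).label (x b) = δ b}.ncard : ℝ)) ∧
      (∀ x : ℕ → ∀ b, (D b).pts, (∀ᶠ i in atTop, x i ∉ Z) →
        (∀ b, Tendsto (fun i => (P b).size ((P b).label (x i b))) atTop atTop) →
        ∀ f : C((∀ b, S b), ℝ), HasCompactSupport f →
          Tendsto (fun i => avg (MulAction.orbit E.fixingSubgroup (x i)) fun y => f fun b => (y b : S b)) atTop
            (𝓝 (∫ s, f s ∂(Measure.pi m)))) ∧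
      ((∀ b, ∀ p : (D b).pts, {(p : S b)} ∈ (D b).subvarieties) →
        ∀ x : ℕ → ∀ b, (D b).pts, (∀ᶠ i in atTop, x i ∉ Z) → (∀ b, (D b).Strict fun i => x i b) →
        ∀ f : C((∀ b, S b), ℝ), HasCompactSupport f →
          Tendsto (fun i => avg (MulAction.orbit E.fixingSubgroup (x i)) fun y => f fun b => (y b : S b)) atTop
            (𝓝 (∫ s, f s ∂(Measure.pi m)))) := by
  obtain ⟨Z, h1, h2⟩ := main m P hFA hFB hFC hDG hE hn hW
  have h3 : ∀ x : ℕ → ∀ b, (D b).pts, (∀ᶠ i in atTop, x i ∉ Z) →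
        (∀ b, Tendsto (fun i => (P b).size ((P b).label (x i b))) atTop atTop) →
        ∀ f : C((∀ b, S b), ℝ), HasCompactSupport f →
          Tendsto (fun i => avg (MulAction.orbit E.fixingSubgroup (x i)) fun y => f fun b => (y b : S b)) atTop
            (𝓝 (∫ s, f s ∂(Measure.pi m))) := by
    intro x hx hd f hf
    obtain ⟨N, hN⟩ := eventually_atTop.1 hx
    have h4 := h2 (fun i => x (i + N)) (fun i => hN _ (Nat.le_add_left N i))
      (fun b => (hd b).comp (tendsto_add_atTop_nat N)) f hf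
    exact (tendsto_add_atTop_iff_nat N).1 h4
  refine ⟨Z, h1, h3, fun hpt x hx hs => h3 x hx (fun b => ?_)⟩
  rw [tendsto_atTop]
  intro R
  have h5 : ∀ᶠ i in atTop, ∀ p ∈ {p : (D b).pts | (P b).size ((P b).label p) ≤ R}, x i b ≠ p := by
    rw [Filter.eventually_all_finite ((P b).northcott R)]
    intro p _
    filter_upwards [hs b _ (hpt b p)] with i hi h
    exact hi (by rw [h]; rfl)
  filter_upwards [h5] with i hi
  by_contra hcon
  exact hi (x i b) (le_of_lt (not_le.1 hcon)) rfl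

end Pool.Agent.Run7.h641.SV
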